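import Pool.Agent.Helper38.SG.Main

/-!
# The Sobolev gap of the unitary minimal principal series is at most `2 c_𝔤`

`ParData G 𝔤` is a real reductive group `G` with Lie algebra `𝔤`, maximal compact subgroup `K`,
Cartan involution, maximal abelian `𝔞` in `𝔭`, positive system and `X0`; `RepData P U` is an
irreducible unitary representation `σ` of `M` and `ν` in the dual of `𝔞`; `V R` is the
Harish-Chandra module `V_{σ, iν}`; `IsGNorm R p` says that `p` is in `Norm(V)`;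
`IsSob s D` says that `D` is the operator `D_s`; `P.c` is `c_𝔤 = ρ(X0)`.
-/

namespace Pool.Agent.Results.MP_6e4a0b_al.SobolevGap

open Pool.Agent.Helper38.SG

universe u

theorem result {G 𝔤 U : Type u} [Group G] [TopologicalSpace G] [IsTopologicalGroup G] [T2Space G]
    [NormedAddCommGroup 𝔤] [InnerProductSpace ℝ 𝔤] [FiniteDimensional ℝ 𝔤]
    [NormedAddCommGroup U] [InnerProductSpace ℂ U] [FiniteDimensional ℂ U]
    (P : ParData G 𝔤) (R : RepData P U) :
    (∀ s : ℝ, ∃! D : V R →ₗ[ℂ] V R, IsSob s D) ∧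
    (∀ p q : V R → ℝ, IsGNorm R p → IsGNorm R q → ∀ s : ℝ, 2 * P.c < s →
      ∀ D : V R →ₗ[ℂ] V R, IsSob s D → ∃ C : ℝ, ∀ f, p f ≤ C * q (D f)) ∧
    (∀ pmin pmax : V R → ℝ, IsGNorm R pmin → IsGNorm R pmax →
      (∀ p, IsGNorm R p → ∃ C : ℝ, ∀ f, pmin f ≤ C * p f) →
      (∀ p, IsGNorm R p → ∃ C : ℝ, ∀ f, p f ≤ C * pmax f) →
      gap R pmin pmax ≤ 2 * P.c) :=
  main P R

end Pool.Agent.Results.MP_6e4a0b_al.SobolevGap
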